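import Mathlib
import Pool.Agent.X303.HC.Fm2

/-!
# The family of a bundle with a homology

Let `E` be a rank two bundle on `ℙⁿ`, `n ≥ 3` (for instance on `ℙ⁴`), which does not split, and let
`h` be the homology which multiplies the coordinate `0` by a primitive `m`-th root of unity.
Suppose that `h` has a lift to `E` (an isomorphism `h^* E ≅ E`), or that some twist of `E` has a
section whose zero scheme is a nonsingular irreducible variety of codimension two which is stable
under `h`.

Then a twist of `E` is the kernel of a homogeneous matrix `(q_{ki} (x_0 ^ m, x_1, …, x_n))` of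
constant rank, and for every form `f` of degree `m` which does not vanish at the centre
`(1 : 0 : … : 0)` of `h`, the matrix `(q_{ki} (f, x_1, …, x_n))` has constant rank as well, and
defines a rank two bundle `E_f` which does not split.  So `E` lies in a family of bundles which do
not split, parametrised by the forms of degree `m` which do not vanish at the centre: the pull-backs
of one bundle on the weighted projective space `ℙ(m, 1, …, 1)` by the maps
`(f, x_1, …, x_n)`.
-/

set_option autoImplicit false

namespace Pool.Agent.Results.MP_745d3a_ag.HomologyFamily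

open MvPolynomial H960VB Pool.Agent.X303.HC Pool.Agent.X303.HC.Var Pool.Agent.X303.HC.Fm

/-- the multiplication of the coordinate `0` by `ζ` -/
def homology {n : ℕ} (ζ : ℂ) : Matrix (Fin (n + 1)) (Fin (n + 1)) ℂ :=
  Matrix.diagonal fun s => if s = 0 then ζ else 1

/-- **The family of a bundle with a homology.** -/
theorem result {n : ℕ} (hn : 3 ≤ n) (E : Bundle2 n) (hE : ¬ E.Splits) (m : ℕ) (hm : 0 < m) (ζ : ℂ)
    (hζ : IsPrimitiveRoot ζ m)
    (h :
      -- the homology lifts to `E`
      (∃ Φ : AbelianSymmetry.Vec E → AbelianSymmetry.Vec E,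
        AbelianSymmetry.IsLift E (homology ζ) Φ) ∨
      -- or the zero scheme of some section is nonsingular and stable under the homology
      (∃ (d : ℤ) (s : Fin E.a → MvPolynomial (Fin (n + 1)) ℂ)
        (I : Ideal (MvPolynomial (Fin (n + 1)) ℂ)), IsSmoothVariety n 2 I ∧
        IsZeroSchemeOf E d s I ∧ Preserves (homology ζ) I)) :
    ∃ (E' : Bundle2 n) (k : ℤ) (Θ : (Fin E.a → MvPolynomial (Fin (n + 1)) ℂ) →
      (Fin E'.a → MvPolynomial (Fin (n + 1)) ℂ))
      (q : Fin E'.c → Fin E'.a → MvPolynomial (Fin (n + 1)) ℂ)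
      (hq : ∀ k i, E'.B k i = st (X 0 ^ m) (q k i)),
      Desc.IsIso E E' k Θ ∧
      ∀ (f : MvPolynomial (Fin (n + 1)) ℂ) (hf : f.IsHomogeneous m)
        (hf0 : eval (Pi.single 0 1) f ≠ 0), ¬ (fam hm q hq hf hf0).Splits := by
  classical
  obtain ⟨Φ, hΦ⟩ : ∃ Φ : AbelianSymmetry.Vec E → AbelianSymmetry.Vec E,
      AbelianSymmetry.IsLift E (homology ζ) Φ := by
    rcases h with h | ⟨d, s, I, hI, hs, h⟩
    · exact h
    · have Z := zs hI (zeroScheme_twist hs)
      obtain ⟨Φ, μ, hΦ, -, -⟩ := exists_isLift (by omega) Z hI.homogeneous h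
      exact ⟨Φ, lift_conv.1 hΦ⟩
  let ζ' : Fin (n + 1) → ℂ := fun i => if i = 0 then ζ else 1
  let Φ' : Fin (n + 1) → AbelianSymmetry.Vec E → AbelianSymmetry.Vec E :=
    fun i => if i = 0 then Φ else fun s => s
  have hl : ∀ i, AbelianSymmetry.IsLift E (AbelianSymmetry.scale (ζ' i) {i}) (Φ' i) := by
    intro i
    by_cases hi : i = 0
    · have e1 : AbelianSymmetry.scale (ζ' i) {i} = homology (n := n) ζ := by
        unfold AbelianSymmetry.scale homology
        congr 1
        funext s
        simp only [ζ', hi, Finset.mem_singleton, if_true]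
      have e2 : Φ' i = Φ := if_pos hi
      rw [e1, e2]
      exact hΦ
    · have e1 : AbelianSymmetry.scale (ζ' i) {i} = (1 : Matrix (Fin (n + 1)) (Fin (n + 1)) ℂ) := by
        unfold AbelianSymmetry.scale
        rw [← Matrix.diagonal_one]
        congr 1
        funext s
        simp only [ζ', hi, if_false, ite_self]
      have e2 : Φ' i = fun s => s := if_neg hi
      rw [e1, e2]
      exact
        { sec := fun _ _ hG => hG
          add := fun _ _ _ _ _ => rfl
          semi := fun _ _ p _ _ _ => by rw [AbelianSymmetry.subst_one]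
          inj := fun _ _ _ h0 => h0 }
  have hcomm : ∀ i j s, Φ' i (Φ' j s) = Φ' j (Φ' i s) := by
    intro i j s
    by_cases hi : i = 0
    · by_cases hj : j = 0
      · rw [hi, hj]
      · have e2 : Φ' j = fun s => s := if_neg hj
        rw [e2]
    · have e2 : Φ' i = fun s => s := if_neg hi
      rw [e2]
  have hod : ∀ i : Fin (n + 1), 0 < od m i := by
    intro i
    unfold od
    split_ifs
    · exact hm
    · exact Nat.one_pos
  have hpr : ∀ i : Fin (n + 1), IsPrimitiveRoot (ζ' i) (od m i) := by
    intro i
    by_cases hi : i = 0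
    · have e1 : ζ' i = ζ := if_pos hi
      have e2 : od m i = m := if_pos hi
      rw [e1, e2]
      exact hζ
    · have e1 : ζ' i = 1 := if_neg hi
      have e2 : od m i = 1 := if_neg hi
      rw [e1, e2]
      exact IsPrimitiveRoot.one
  obtain ⟨E', k, Θ, hE', hiso, hB⟩ := presentation_ns hn hE hod hpr
    (fun i => AbelianSymmetry.gop (hl i)) (fun i j => ⟨1, fun d => by
      rw [one_smul]
      apply LinearMap.ext
      intro s
      apply Subtype.ext
      exact hcomm i j s.1⟩)
  choose q hq using hB
  refine ⟨E', k, Θ, q, fun k i => by rw [hq, st_pow], hiso, fun f hf hf0 => ?_⟩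
  exact fam_not_splits hm q _ hn hE' hf hf0

end Pool.Agent.Results.MP_745d3a_ag.HomologyFamily
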