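import Mathlib
import Pool.Agent.X303.HC.Loc4

/-!
# Lines through the isolated fixed points of automorphisms of zero schemes of sections

Let `E` be a rank two bundle on `ℙⁿ`, `n ≥ 3` (for instance on `ℙ⁴`), which does not split, and let
`X` be the zero scheme of a section of a twist `E(d)`, nonsingular and irreducible (a surface for
`n = 4`).

* Let `g` be a matrix which preserves `X`, `l` an eigenvalue of `g` whose eigenspace has dimension at
  least three and is not contained in the cone over `X`, and `P` a point outside `X` with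
  `g P = m P`.  Then `(m / l) ^ (p + d) = 1` or `(m / l) ^ (q + d) = 1` for the splitting types
  `(p, q)` of `E` on all the lines joining `P` to this eigenspace (`result`, part 1).
* Let `X` be stable under the multiplication of the coordinate `i` by `ζ ≠ 1` (a homology, whose
  centre is the coordinate point `e`).  If `e` is not on `X`, then `ζ ^ (p + d) = 1` or
  `ζ ^ (q + d) = 1` for all lines through `e`.  If `e` is on `X`, then
  `ζ ^ (p + d) = ζ ^ (q + d) = ζ` for all lines through `e`, and `ζ ^ (c₁(E) + 2d - 2) = 1` (part 2).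
* Let `n ≥ 4`, and let `X` be stable under the multiplication of the coordinates `j` and `k` by `ζ`.
  Let `L` be the line joining the coordinate points `j`, `k`.  For the lines joining a point `P` of
  `L` to the points where the coordinates `j` and `k` vanish, `ζ ^ (p + d) = 1` or
  `ζ ^ (q + d) = 1` if `P` is not on `X`, and both `ζ ^ (p + d)`, `ζ ^ (q + d)` are `1` or `ζ` if
  `P` is on `X` (part 3).
* For `P` and `g` as in the first statement, `g` in the group generated by commuting matrices which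
  preserve `X` and have an eigenspace of dimension at least three containing `P`, one has
  `(m / l) ^ (p + d) = (m / l) ^ (q + d) = 1` (part 4).
-/

set_option autoImplicit false

namespace Pool.Agent.Results.MP_745d3a_ag.HomologyLines

open MvPolynomial H960VB Pool.Agent.X303.HC Pool.Agent.X303.HC.Var

/-- the eigenspace of `g` with eigenvalue `l` -/
def eigen {n : ℕ} (g : Matrix (Fin (n + 1)) (Fin (n + 1)) ℂ) (l : ℂ) :
    Submodule ℂ (Fin (n + 1) → ℂ) :=
  LinearMap.ker (g.mulVecLin - l • LinearMap.id)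

/-- the multiplication of the coordinates in `S` by `ζ` -/
def scale {n : ℕ} (ζ : ℂ) (S : Finset (Fin (n + 1))) :
    Matrix (Fin (n + 1)) (Fin (n + 1)) ℂ :=
  Matrix.diagonal fun s => if s ∈ S then ζ else 1

/-- **Splitting types at the fixed points of automorphisms of zero schemes of sections.** -/
theorem result {n : ℕ} (hn : 3 ≤ n) (E : Bundle2 n) (hE : ¬ E.Splits)
    -- a section of `E(d)` whose zero scheme is the nonsingular irreducible variety `X`
    (d : ℤ) (s : Fin E.a → MvPolynomial (Fin (n + 1)) ℂ)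
    (I : Ideal (MvPolynomial (Fin (n + 1)) ℂ)) (hI : IsSmoothVariety n 2 I)
    (hs : IsZeroSchemeOf E d s I) :
    -- one automorphism with a large eigenspace
    (∀ g : Matrix (Fin (n + 1)) (Fin (n + 1)) ℂ, Preserves g I → ∀ m l : ℂ, m ≠ l →
      3 ≤ Module.finrank ℂ (eigen g l) → (∃ x ∈ eigen g l, x ∉ cone I) →
      ∀ P ∈ eigen g m, P ∉ cone I → ∀ Q ∈ eigen g l, Q ≠ 0 → ∀ p q : ℤ, E.SplitsOn P Q p q →
      (m / l) ^ (p + d) = 1 ∨ (m / l) ^ (q + d) = 1) ∧
    -- one homology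
    (∀ ζ : ℂ, ζ ≠ 1 → ∀ i : Fin (n + 1), Preserves (scale ζ {i}) I →
      ∀ Q : Fin (n + 1) → ℂ, Q ≠ 0 → Q i = 0 → ∀ p q : ℤ, E.SplitsOn (Pi.single i 1) Q p q →
      (Pi.single i 1 ∉ cone I → ζ ^ (p + d) = 1 ∨ ζ ^ (q + d) = 1) ∧
      (Pi.single i 1 ∈ cone I → ζ ^ (p + d) = ζ ∧ ζ ^ (q + d) = ζ ∧
        ζ ^ (p + q + 2 * d - 2) = 1)) ∧
    -- two coordinates
    (4 ≤ n → ∀ ζ : ℂ, ζ ≠ 1 → ∀ j k : Fin (n + 1), j ≠ k → Preserves (scale ζ {j, k}) I →
      ∀ P : Fin (n + 1) → ℂ, P ≠ 0 → (∀ l, l ≠ j → l ≠ k → P l = 0) →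
      ∀ Q : Fin (n + 1) → ℂ, Q ≠ 0 → Q j = 0 → Q k = 0 → ∀ p q : ℤ, E.SplitsOn P Q p q →
      (P ∉ cone I → ζ ^ (p + d) = 1 ∨ ζ ^ (q + d) = 1) ∧
      (P ∈ cone I → (ζ ^ (p + d) = 1 ∨ ζ ^ (p + d) = ζ) ∧
        (ζ ^ (q + d) = 1 ∨ ζ ^ (q + d) = ζ))) ∧
    -- commuting automorphisms
    (∀ S : Set (Matrix (Fin (n + 1)) (Fin (n + 1)) ℂ)ˣ,
      (∀ a ∈ S, Preserves (a : Matrix (Fin (n + 1)) (Fin (n + 1)) ℂ) I) →
      (∀ a ∈ S, ∀ b ∈ S, a * b = b * a) →
      ∀ P : Fin (n + 1) → ℂ, P ∉ cone I →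
      (∀ a ∈ S, ∃ r : ℂ, P ∈ eigen (a : Matrix (Fin (n + 1)) (Fin (n + 1)) ℂ) r ∧
        3 ≤ Module.finrank ℂ (eigen (a : Matrix (Fin (n + 1)) (Fin (n + 1)) ℂ) r)) →
      ∀ g ∈ Subgroup.closure S, ∀ m l : ℂ,
      P ∈ eigen (g : Matrix (Fin (n + 1)) (Fin (n + 1)) ℂ) m →
      3 ≤ Module.finrank ℂ (eigen (g : Matrix (Fin (n + 1)) (Fin (n + 1)) ℂ) l) →
      (∃ x ∈ eigen (g : Matrix (Fin (n + 1)) (Fin (n + 1)) ℂ) l, x ∉ cone I) →
      ∀ Q ∈ eigen (g : Matrix (Fin (n + 1)) (Fin (n + 1)) ℂ) l, Q ≠ 0 → ∀ p q : ℤ,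
      E.SplitsOn P Q p q → (m / l) ^ (p + d) = 1 ∧ (m / l) ^ (q + d) = 1) := by
  classical
  have Z := zs hI (zeroScheme_twist hs)
  have hE' : ¬ (twist E d).Splits := fun h => hE (twist_splits.1 h)
  refine ⟨?_, ?_, ?_, ?_⟩
  · intro g hg m l hml hl3 hl P hP hPX Q hQ hQ0 p q hpq
    have hP0 : P ≠ 0 := by
      rintro rfl
      exact hPX Z.zero_mem
    exact comm_types hn Z hI.homogeneous hE' hg.1 hg.2 hml hl3 hl hP0 hP hPX hQ0 hQ
      (twist_shift hpq)
  · intro ζ hζ i hg Q hQ0 hQi p q hpq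
    have h := homology_types hn Z hI.homogeneous hE' hζ hg.1 hg.2 hQ0 hQi (twist_shift hpq)
    have h0 : ζ ≠ 0 := by
      rintro rfl
      have h1 := (Matrix.isUnit_iff_isUnit_det _).1 hg.1
      unfold scale at h1
      rw [Matrix.det_diagonal] at h1
      exact h1.ne_zero (Finset.prod_eq_zero (Finset.mem_univ i)
        (if_pos (Finset.mem_singleton_self i)))
    refine ⟨h.1, fun hi => ⟨(h.2 hi).1, (h.2 hi).2, ?_⟩⟩
    obtain ⟨e1, e2⟩ := h.2 hi
    have e3 : p + q + 2 * d - 2 = (p + d) + (q + d) - 2 := by ring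
    have e4 : ζ ^ (2 : ℤ) = ζ * ζ := by
      rw [show (2 : ℤ) = 1 + 1 by norm_num, zpow_add₀ h0, zpow_one]
    rw [e3, zpow_sub₀ h0, zpow_add₀ h0, e1, e2, e4, div_self (mul_ne_zero h0 h0)]
  · intro hn4 ζ hζ j k hjk hg P hP0 hP Q hQ0 hQj hQk p q hpq
    exact pair_types hn4 Z hI.homogeneous hE' hζ hjk hg.1 hg.2 hP0 hP hQ0 hQj hQk
      (twist_shift hpq)
  · intro S hS hcomm P hPX hP g hg m l hm hl hlX Q hQ hQ0 p q hpq
    exact comm_group hn Z hI.homogeneous hE S hS hcomm hPX hP hg hm hl hlX hQ0 hQ hpq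

end Pool.Agent.Results.MP_745d3a_ag.HomologyLines
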