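import Mathlib
import Pool.Agent.X303.HC.Desc6

/-!
# Bundles with homologies in all coordinates are pull-backs under `(x_i) ↦ (x_i ^ m)`

Let `E` be a rank two bundle on `ℙⁿ`, `n ≥ 3` (for instance on `ℙ⁴`), which does not split, and let
`ζ` be a primitive `m`-th root of unity.

(1) Suppose that `E` is invariant under the homologies which multiply one coordinate by `ζ`, for
all the coordinates: there is a commutative group of symmetries of `E` in the sense of the starting
result `MP_745d3a_ag.AbelianSymmetry` (every element `g` of the group has a lift to `E`, that is an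
isomorphism `g^* E ≅ E`, and either `E` is simple or the lifts compose up to constants) which
contains these homologies.  Then `E` is isomorphic to a twist of the pull-back of a rank two bundle
`F` under the finite map `(x_i) ↦ (x_i ^ m)` of `ℙⁿ` to itself, and `F` does not split.

(2) The same holds if some twist of `E` has a section whose zero scheme is a nonsingular irreducible
variety `X` of codimension two (a surface for `n = 4`) which is stable under these homologies.

On a hyperplane `x_i = 0` the lift of the homology acts on the fibres by a constant, as `E` does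
not split.  So the eigensections with another eigenvalue vanish there; all the eigensections are
monomials times invariant sections, and the wedge products of the invariant sections are polynomials
in the `x_i ^ m`, whose Plücker relations define `F`.
-/

set_option autoImplicit false

namespace Pool.Agent.Results.MP_745d3a_ag.PowerPullback

open MvPolynomial H960VB Pool.Agent.X303.HC Pool.Agent.X303.HC.Var Pool.Agent.X303.HC.Desc

/-- the multiplication of the coordinate `i` by `ζ` -/
def homology {n : ℕ} (ζ : ℂ) (i : Fin (n + 1)) : Matrix (Fin (n + 1)) (Fin (n + 1)) ℂ :=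
  Matrix.diagonal fun s => if s = i then ζ else 1

theorem homology_eq {n : ℕ} (ζ : ℂ) (i : Fin (n + 1)) :
    homology ζ i = AbelianSymmetry.scale ζ {i} := by
  unfold homology AbelianSymmetry.scale
  congr 1
  funext s
  simp only [Finset.mem_singleton]

theorem symmetric {n : ℕ} (hn : 3 ≤ n) (E : Bundle2 n) (hE : ¬ E.Splits) {G : Type} [CommGroup G]
    (ρ : G →* Matrix (Fin (n + 1)) (Fin (n + 1)) ℂ)
    (Φ : G → AbelianSymmetry.Vec E → AbelianSymmetry.Vec E)
    (hΦ : AbelianSymmetry.IsSymmetry E ρ Φ) (m : ℕ) (hm : 0 < m) (ζ : ℂ)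
    (hζ : IsPrimitiveRoot ζ m) (h : ∀ i, ∃ g, ρ g = homology ζ i) :
    ∃ (F : Bundle2 n) (k : ℤ) (Θ : (Fin E.a → MvPolynomial (Fin (n + 1)) ℂ) →
      (Fin (powPull m hm F).a → MvPolynomial (Fin (n + 1)) ℂ)),
      ¬ F.Splits ∧ IsIso E (powPull m hm F) k Θ := by
  choose g hg using h
  have hl : ∀ i, AbelianSymmetry.IsLift E (AbelianSymmetry.scale ζ {i}) (Φ (g i)) := by
    intro i
    rw [← homology_eq, ← hg i]
    exact hΦ.lift _
  have hmul : ∀ a b, ∃ c : ℂ, c ≠ 0 ∧
      ∀ d s, E.IsSection d s → Φ (a * b) s = c • Φ a (Φ b s) := by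
    rcases hΦ.mul with h | h
    · exact AbelianSymmetry.simple_action h ρ Φ hΦ.lift
    · exact h
  refine descent hn hE hm hζ (fun i => AbelianSymmetry.gop (hl i)) fun i j => ?_
  obtain ⟨c, hc0, hc⟩ := hmul (g i) (g j)
  obtain ⟨c', hc0', hc'⟩ := hmul (g j) (g i)
  refine ⟨c⁻¹ * c', fun d => ?_⟩
  apply LinearMap.ext
  intro s
  apply Subtype.ext
  have hs := Pool.Agent.W615.sec_iff.1 s.2
  have h1 := hc d s.1 hs
  rw [mul_comm (g i) (g j), hc' d s.1 hs] at h1
  show Φ (g i) (Φ (g j) s.1) = (c⁻¹ * c') • Φ (g j) (Φ (g i) s.1)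
  rw [mul_smul, h1, smul_smul, inv_mul_cancel₀ hc0, one_smul]

/-- **Bundles with homologies in all coordinates are pull-backs.** -/
theorem result {n : ℕ} (hn : 3 ≤ n) (E : Bundle2 n) (hE : ¬ E.Splits) (m : ℕ) (hm : 0 < m) (ζ : ℂ)
    (hζ : IsPrimitiveRoot ζ m)
    (h :
      -- `E` is invariant under the homologies
      (∃ (G : Type) (_ : CommGroup G) (ρ : G →* Matrix (Fin (n + 1)) (Fin (n + 1)) ℂ)
        (Φ : G → AbelianSymmetry.Vec E → AbelianSymmetry.Vec E),
        AbelianSymmetry.IsSymmetry E ρ Φ ∧ ∀ i, ∃ g, ρ g = homology ζ i) ∨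
      -- or the zero scheme of some section is nonsingular and stable under the homologies
      (∃ (d : ℤ) (s : Fin E.a → MvPolynomial (Fin (n + 1)) ℂ)
        (I : Ideal (MvPolynomial (Fin (n + 1)) ℂ)), IsSmoothVariety n 2 I ∧
        IsZeroSchemeOf E d s I ∧ ∀ i, Preserves (homology ζ i) I)) :
    ∃ (F : Bundle2 n) (k : ℤ) (Θ : (Fin E.a → MvPolynomial (Fin (n + 1)) ℂ) →
      (Fin (powPull m hm F).a → MvPolynomial (Fin (n + 1)) ℂ)),
      ¬ F.Splits ∧ IsIso E (powPull m hm F) k Θ := by
  rcases h with ⟨G, hG, ρ, Φ, hΦ, h⟩ | ⟨d, s, I, hI, hs, h⟩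
  · exact symmetric hn E hE ρ Φ hΦ m hm ζ hζ h
  · have Z := zs hI (zeroScheme_twist hs)
    obtain ⟨Φ, hΦ⟩ := exists_symmetry hn Z hI.homogeneous (diagRep Z hI.homogeneous)
      (fun g => g.2)
    exact symmetric hn E hE _ Φ hΦ m hm ζ hζ fun i => exists_diag Z hI.homogeneous (h i)

end Pool.Agent.Results.MP_745d3a_ag.PowerPullback
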