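import Mathlib
import Pool.Agent.X303.HC.Lf

/-!
# Automorphisms with a large eigenspace of the zero schemes of sections of rank two bundles

Let `E` be a rank two bundle on `ℙⁿ`, `n ≥ 3` (for instance on `ℙ⁴`), which does not split, and let
`X` be the zero scheme of a section of a twist `E(d)`, nonsingular and irreducible (a surface for
`n = 4`).  Let `g` be a linear automorphism of `ℙⁿ` which preserves `X`, let `l` be an eigenvalue of
`g` whose eigenspace has dimension at least three, and `m` another eigenvalue.  Then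

* the splitting types of all lines joining the eigenspaces of `m` and `l` are congruent modulo the
  order of `m / l`;
* through every point of the eigenspace of `m` there is such a joining line of type `(p, q)` with
  `|p - q| + |p₀ - q₀| ≥ 2 ord (m / l)`, where `(p₀, q₀)` is the type of any joining line;
* `m / l` is a root of unity of order at most `c₁ (E(e))`, for every `e` such that `E(e)` is
  generated by its sections.

The starting result `MP_745d3a_ag.FiniteSymmetry` has these conclusions for `g` with `g^* E ≅ E`.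
Here it is proved that every `g` which preserves `X` has this property.
-/

set_option autoImplicit false

namespace Pool.Agent.Results.MP_745d3a_ag.SurfaceAutomorphisms

open MvPolynomial H960VB Pool.Agent.X303.HC Pool.Agent.X303.HC.Var

/-- the eigenspace of `g` with eigenvalue `l` -/
def eigen {n : ℕ} (g : Matrix (Fin (n + 1)) (Fin (n + 1)) ℂ) (l : ℂ) :
    Submodule ℂ (Fin (n + 1) → ℂ) :=
  LinearMap.ker (g.mulVecLin - l • LinearMap.id)

/-- **Automorphisms with a large eigenspace of the zero schemes of sections.** -/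
theorem result {n : ℕ} (hn : 3 ≤ n) (E : Bundle2 n) (hE : ¬ E.Splits)
    -- a section of `E(d)` whose zero scheme is the nonsingular irreducible variety `X`
    (d : ℤ) (s : Fin E.a → MvPolynomial (Fin (n + 1)) ℂ)
    (I : Ideal (MvPolynomial (Fin (n + 1)) ℂ)) (hI : IsSmoothVariety n 2 I)
    (hs : IsZeroSchemeOf E d s I) :
    ∃ c : ℤ, IsChern E c ∧ (∃ e : ℤ, Generated E e) ∧
    ∀ g : Matrix (Fin (n + 1)) (Fin (n + 1)) ℂ, Preserves g I →
      ∀ l m : ℂ, m ≠ l → 3 ≤ Module.finrank ℂ (eigen g l) →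
      -- the types of the joining lines are congruent
      (∀ P ∈ eigen g m, P ≠ 0 → ∀ Q ∈ eigen g l, Q ≠ 0 →
        ∀ P' ∈ eigen g m, P' ≠ 0 → ∀ Q' ∈ eigen g l, Q' ≠ 0 → ∀ p q p' q' : ℤ,
        E.SplitsOn P Q p q → E.SplitsOn P' Q' p' q' →
        (m / l) ^ (q - q') = 1 ∨ (m / l) ^ (p - q') = 1) ∧
      -- a line of large jump through every point of the second eigenspace
      (∀ P ∈ eigen g m, P ≠ 0 → ∀ P₀ ∈ eigen g m, P₀ ≠ 0 → ∀ Q₀ ∈ eigen g l, Q₀ ≠ 0 →
        ∀ p₀ q₀ : ℤ, E.SplitsOn P₀ Q₀ p₀ q₀ →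
        ∃ Q ∈ eigen g l, Q ≠ 0 ∧ ∃ p q : ℤ, E.SplitsOn P Q p q ∧
        ∃ j : ℕ, 0 < j ∧ 2 * (j : ℤ) ≤ |p - q| + |p₀ - q₀| ∧ (m / l) ^ j = 1) ∧
      -- the bound for the order by the first Chern class of `E(e)`
      ∀ P ∈ eigen g m, P ≠ 0 → ∀ e : ℤ, Generated E e →
        ∃ j : ℕ, 0 < j ∧ (j : ℤ) ≤ c + 2 * e ∧ (m / l) ^ j = 1 := by
  have Z := zs hI (zeroScheme_twist hs)
  obtain ⟨c, h1, h2, h3⟩ :=
    Pool.Agent.Results.MP_745d3a_ag.FiniteSymmetry.result (by omega : 1 ≤ n) E hE
  refine ⟨c, h1, h2, fun g hg l m hml hl => ?_⟩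
  obtain ⟨Φ, μ, hΦ, -, -⟩ := exists_isLift (by omega) Z hI.homogeneous hg
  exact h3 g Φ hg.1 hΦ l m hml hl

end Pool.Agent.Results.MP_745d3a_ag.SurfaceAutomorphisms
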